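import Pool.Agent.Q98.AXI.EllW

/-! Project AXW of helper67, job AXW-1: the energy identity with weight at one time (helper174). -/

set_option autoImplicit false

open MeasureTheory Set Metric Filter Topology
open scoped ContDiff
open H459R3.NS Pool.Agent.W268.NS Pool.Agent.Q67.VD

namespace Pool.Agent.Q174.AXW

open Pool.Agent.Q85.CC Pool.Agent.Q85.CL Pool.Agent.TH305.AX Pool.Agent.Q67.AXI
  Pool.Agent.Q98.AXI

/-- integration by parts with the weight -/
lemma J_pd {γ : ℝ} (hγ : 0 < γ) {G : V → ℝ} (hG : SC G) (i : Fin 3) :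
    J γ (pd i G) = -γ * J (γ - 1) (fun x => pd i sg x * G x) := by
  have hb1 : -1 < γ := by linarith
  have hb2 : -1 < γ - 1 := by linarith
  have e1 : ∀ n, ∫ x, (sg x + ep n) ^ γ * 1 * pd i G x
      = -γ * ∫ x, (sg x + ep n) ^ (γ - 1) * 1 * (pd i sg x * G x) := by
    intro n
    have he := ep_pos n
    have hW := wr_sm γ he
    have h1 := ibp hG.sm hG.cs hW i
    have h2 : ∀ x, pd i (wr γ (ep n)) x * G x
        = γ * ((sg x + ep n) ^ (γ - 1) * 1 * (pd i sg x * G x)) := by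
      intro x
      rw [pd_wr γ he]
      ring
    simp only [h2] at h1
    rw [integral_const_mul] at h1
    have h3 : ∫ x, (sg x + ep n) ^ γ * 1 * pd i G x = ∫ x, wr γ (ep n) x * pd i G x := by
      simp only [wr, mul_one]
    rw [h3, h1]
    ring
  have hs : SC (fun x => pd i sg x * G x) := hG.ml (sm_pd sg_sm i)
  have l1 := reg_lim hb1 (hG.pd i).sm.continuous (hG.pd i).cs (fun _ _ => (1 : ℝ))
    (fun _ => continuous_const) (by simp) (fun x _ => tendsto_const_nhds)
  have l2 := reg_lim hb2 hs.sm.continuous hs.cs (fun _ _ => (1 : ℝ))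
    (fun _ => continuous_const) (by simp) (fun x _ => tendsto_const_nhds)
  exact tendsto_nhds_unique l1 ((l2.const_mul (-γ)).congr fun n => (e1 n).symm)

/-- the divergence theorem with the weight -/
lemma J_dv {γ : ℝ} (hγ : 0 < γ) {X : Fin 3 → V → ℝ} (hX : ∀ i, SC (X i)) :
    J γ (fun x => ∑ i, pd i (X i) x)
      = -(2 * γ) * J (γ - 1) (fun x => x 0 * X 0 x + x 1 * X 1 x) := by
  have hb1 : -1 < γ := by linarith
  have hb2 : -1 < γ - 1 := by linarith
  have e1 : (fun x => ∑ i, pd i (X i) x)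
      = fun x => (pd 0 (X 0) x + pd 1 (X 1) x) + pd 2 (X 2) x := by
    funext x
    rw [Fin.sum_univ_three]
  rw [e1, J_add hb1 (((hX 0).pd 0).add ((hX 1).pd 1)) ((hX 2).pd 2),
    J_add hb1 ((hX 0).pd 0) ((hX 1).pd 1)]
  have f0 : J γ (fun x => pd 0 (X 0) x) = J γ (pd 0 (X 0)) := rfl
  have f1 : J γ (fun x => pd 1 (X 1) x) = J γ (pd 1 (X 1)) := rfl
  have f2 : J γ (fun x => pd 2 (X 2) x) = J γ (pd 2 (X 2)) := rfl
  rw [f0, f1, f2, J_pd2 hb1 (hX 2), J_pd hγ (hX 0), J_pd hγ (hX 1)]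
  have g0 : (fun x => pd 0 sg x * X 0 x) = fun x => 2 * (x 0 * X 0 x) := by
    funext x
    rw [pd_sg]
    simp
    ring
  have g1 : (fun x => pd 1 sg x * X 1 x) = fun x => 2 * (x 1 * X 1 x) := by
    funext x
    rw [pd_sg]
    simp
    ring
  rw [g0, g1, J_cm, J_cm, J_add hb2 ((hX 0).ml (sm_crd 0)) ((hX 1).ml (sm_crd 1))]
  ring

lemma SC.sub3 {f g h : V → ℝ} (hf : SC f) (hg : SC g) (hh : SC h) :
    SC (fun x => f x + g x + h x) := (hf.add hg).add hh

lemma SC.lap {f : V → ℝ} (hf : SC f) : SC (lap f) := by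
  have e : H459R3.NS.lap f = fun x => pd 0 (pd 0 f) x + pd 1 (pd 1 f) x + pd 2 (pd 2 f) x := by
    funext x
    unfold H459R3.NS.lap
    rw [Fin.sum_univ_three]
  rw [e]
  exact SC.sub3 ((hf.pd 0).pd 0) ((hf.pd 1).pd 1) ((hf.pd 2).pd 2)

lemma SC.gr2 {f : V → ℝ} (hf : SC f) : SC (gr2 f) := by
  have e : Pool.Agent.Q67.AXI.gr2 f
      = fun x => pd 0 f x * pd 0 f x + pd 1 f x * pd 1 f x + pd 2 f x * pd 2 f x := by
    funext x
    unfold Pool.Agent.Q67.AXI.gr2
    rw [Fin.sum_univ_three]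
    ring
  rw [e]
  exact SC.sub3 ((hf.pd 0).mul (hf.pd 0)) ((hf.pd 1).mul (hf.pd 1)) ((hf.pd 2).mul (hf.pd 2))

lemma SC.dv {X : Fin 3 → V → ℝ} (hX : ∀ i, SC (X i)) : SC (fun x => ∑ i, pd i (X i) x) := by
  have e : (fun x => ∑ i, pd i (X i) x)
      = fun x => pd 0 (X 0) x + pd 1 (X 1) x + pd 2 (X 2) x := by
    funext x
    rw [Fin.sum_univ_three]
  rw [e]
  exact SC.sub3 ((hX 0).pd 0) ((hX 1).pd 1) ((hX 2).pd 2)

lemma SC.adv {f : V → ℝ} (hf : SC f) {v : V → V} (hv : ContDiff ℝ ∞ v) :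
    SC (W221.NS.adv v f) := by
  have e : W221.NS.adv v f
      = fun x => v x 0 * pd 0 f x + v x 1 * pd 1 f x + v x 2 * pd 2 f x := by
    funext x
    unfold W221.NS.adv
    rw [Fin.sum_univ_three]
  have hc : ∀ i, ContDiff ℝ ∞ (fun x => v x i) := fun i => contDiff_pi.1 hv i
  rw [e]
  exact SC.sub3 ((hf.pd 0).ml (hc 0)) ((hf.pd 1).ml (hc 1)) ((hf.pd 2).ml (hc 2))

/-- linear combination of six functions -/
lemma J_six {β : ℝ} (hβ : -1 < β) {a₁ a₂ a₃ a₄ a₅ a₆ : V → ℝ} (h₁ : SC a₁) (h₂ : SC a₂)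
    (h₃ : SC a₃) (h₄ : SC a₄) (h₅ : SC a₅) (h₆ : SC a₆) (c₁ c₂ c₃ c₄ c₅ c₆ : ℝ) :
    J β (fun x => c₁ * a₁ x + c₂ * a₂ x + c₃ * a₃ x + c₄ * a₄ x + c₅ * a₅ x + c₆ * a₆ x)
      = c₁ * J β a₁ + c₂ * J β a₂ + c₃ * J β a₃ + c₄ * J β a₄ + c₅ * J β a₅ + c₆ * J β a₆ := by
  have k₁ := h₁.cm c₁
  have k₂ := h₂.cm c₂
  have k₃ := h₃.cm c₃
  have k₄ := h₄.cm c₄
  have k₅ := h₅.cm c₅
  have k₆ := h₆.cm c₆
  rw [J_add hβ ((((k₁.add k₂).add k₃).add k₄).add k₅) k₆,
    J_add hβ (((k₁.add k₂).add k₃).add k₄) k₅, J_add hβ ((k₁.add k₂).add k₃) k₄,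
    J_add hβ (k₁.add k₂) k₃, J_add hβ k₁ k₂, J_cm, J_cm, J_cm, J_cm, J_cm, J_cm]

lemma pd_addx {f g : V → ℝ} (hf : ContDiff ℝ ∞ f) (hg : ContDiff ℝ ∞ g) (i : Fin 3) (x : V) :
    pd i (fun y => f y + g y) x = pd i f x + pd i g x := by
  unfold pd
  rw [fderiv_fun_add (hf.differentiable (by simp) x) (hg.differentiable (by simp) x)]
  rfl

/-- second derivatives of a product -/
lemma pd_pd_mul {f g : V → ℝ} (hf : ContDiff ℝ ∞ f) (hg : ContDiff ℝ ∞ g) (i : Fin 3) (x : V) :
    pd i (pd i (fun y => f y * g y)) x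
      = f x * pd i (pd i g) x + 2 * (pd i f x * pd i g x) + pd i (pd i f) x * g x := by
  rw [pd_mulf hf hg, pd_addx (hf.mul (sm_pd hg i)) ((sm_pd hf i).mul hg),
    pd_mulf hf (sm_pd hg i), pd_mulf (sm_pd hf i) hg]
  ring

lemma pd_mulx {f g : V → ℝ} (hf : ContDiff ℝ ∞ f) (hg : ContDiff ℝ ∞ g) (i : Fin 3) (x : V) :
    pd i (fun y => f y * g y) x = f x * pd i g x + pd i f x * g x := by
  rw [pd_mulf hf hg]

theorem t_EnW : StmEnW := by
  intro γ hγ hγ1 O v f S φ hO hv hdv hf hS hφ hφc hφO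
  have hb1 : -1 < γ := by linarith
  have hb2 : -1 < γ - 1 := by linarith
  have hvi : ∀ i, ContDiff ℝ ∞ (fun x => v x i) := fun i => contDiff_pi.1 hv i
  -- reduction of the weight
  have w1 : ∀ (x : V), wt γ x / sg x = sg x ^ (γ - 1) := by
    intro x
    rcases eq_or_lt_of_le (sg_nn x) with hx | hx
    · simp only [wt]
      rw [← hx, Real.zero_rpow hγ.ne', Real.zero_rpow (by linarith), zero_div]
    · simp only [wt]
      rw [Real.rpow_sub_one hx.ne']
  have sφ : SC φ := ⟨hφ, hφc⟩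
  have sF : SC (fun x => φ x * f x) := by
    have h := sφ.ml hf
    have e : (fun x => φ x * f x) = fun x => f x * φ x := by
      funext x
      ring
    rw [e]
    exact h
  have sP : SC (fun x => φ x * φ x) := sφ.mul sφ
  have hrad : ContDiff ℝ ∞ (rad v) := by
    unfold rad
    exact ((sm_crd 0).mul (hvi 0)).add ((sm_crd 1).mul (hvi 1))
  have hff : ContDiff ℝ ∞ (fun x => f x * f x) := hf.mul hf
  have hP2 : (fun y => φ y ^ 2) = fun y => φ y * φ y := by
    funext y
    ring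
  -- fields
  have X1 : ∀ i : Fin 3, SC (fun x => (φ x * f x) * pd i (fun y => φ y * f y) x) :=
    fun i => sF.mul (sF.pd i)
  have X2 : ∀ i : Fin 3, SC (fun x => f x * f x * pd i (fun y => φ y * φ y) x) :=
    fun i => (sP.pd i).ml hff
  have X3 : ∀ i : Fin 3, SC (fun x => v x i * ((φ x * f x) * (φ x * f x))) :=
    fun i => (sF.mul sF).ml (hvi i)
  have d1 := J_dv hγ X1
  have d2 := J_dv hγ X2
  have d3 := J_dv hγ X3
  have d4 := J_RR hb2 (sF.mul sF)
  -- names
  set A1 : V → ℝ := fun x => ∑ i, pd i (fun x => (φ x * f x) * pd i (fun y => φ y * f y) x) x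
    with hA1
  set A2 : V → ℝ := fun x => ∑ i, pd i (fun x => f x * f x * pd i (fun y => φ y * φ y) x) x
    with hA2
  set A3 : V → ℝ := fun x => ∑ i, pd i (fun x => v x i * ((φ x * f x) * (φ x * f x))) x
    with hA3
  have sA1 : SC A1 := SC.dv X1
  have sA2 : SC A2 := SC.dv X2
  have sA3 : SC A3 := SC.dv X3
  have sG : SC (gr2 (fun x => φ x * f x)) := SC.gr2 sF
  have sB : SC (fun x => f x * f x * (2 * gr2 φ x + W221.NS.adv v (fun y => φ y * φ y) x)) :=
    (((SC.gr2 sφ).cm 2).add (SC.adv sP hv)).ml hff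
  have sS : SC (fun x => φ x ^ 2 * f x * S x) := by
    have h := sP.ml (hf.mul hS)
    have e : (fun x => φ x ^ 2 * f x * S x) = fun x => f x * S x * (φ x * φ x) := by
      funext x
      ring
    rw [e]
    exact h
  have sR : SC (RR (fun x => (φ x * f x) * (φ x * f x))) := (sF.mul sF).RR
  have sQ : SC (fun x => f x * f x * RR (fun y => φ y * φ y) x) := sP.RR.ml hff
  have sFF : SC (fun x => (φ x * f x) * (φ x * f x)) := sF.mul sF
  have sV : SC (fun x => rad v x * ((φ x * f x) * (φ x * f x))) := sFF.ml hrad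
  -- pointwise identities
  have p1 : ∀ x, 2 * φ x ^ 2 * f x * lap f x = 2 * (A1 x - gr2 (fun x => φ x * f x) x) - A2 x
      + 2 * (f x * f x) * gr2 φ x := by
    intro x
    rw [hA1, hA2]
    simp only [lap, gr2, Fin.sum_univ_three]
    have q1 : ∀ i, pd i (fun x => (φ x * f x) * pd i (fun y => φ y * f y) x) x
        = (φ x * f x) * (φ x * pd i (pd i f) x + 2 * (pd i φ x * pd i f x)
          + pd i (pd i φ) x * f x) + (φ x * pd i f x + pd i φ x * f x) ^ 2 := by
      intro i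
      rw [pd_mulx sF.sm (sF.pd i).sm, pd_pd_mul hφ hf, pd_mulx hφ hf]
      ring
    have q2 : ∀ i, pd i (fun x => f x * f x * pd i (fun y => φ y * φ y) x) x
        = f x * f x * (2 * φ x * pd i (pd i φ) x + 2 * (pd i φ x) ^ 2)
          + 2 * f x * pd i f x * (2 * φ x * pd i φ x) := by
      intro i
      rw [pd_mulx hff (sP.pd i).sm, pd_pd_mul hφ hφ, pd_mulx hφ hφ, pd_mulx hf hf]
      ring
    rw [q1, q1, q1, q2, q2, q2, pd_mulx hφ hf, pd_mulx hφ hf, pd_mulx hφ hf]
    ring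
  have p2 : ∀ x, 4 * φ x ^ 2 * f x * RR f x = 2 * RR (fun x => (φ x * f x) * (φ x * f x)) x
      - 2 * (f x * f x * RR (fun y => φ y * φ y) x) := by
    intro x
    unfold RR
    rw [pd_mulx sF.sm sF.sm, pd_mulx sF.sm sF.sm, pd_mulx hφ hf, pd_mulx hφ hf, pd_mulx hφ hφ,
      pd_mulx hφ hφ]
    ring
  have p3 : ∀ x, 2 * φ x ^ 2 * f x * W221.NS.adv v f x
      = A3 x - f x * f x * W221.NS.adv v (fun y => φ y * φ y) x := by
    intro x
    rw [hA3]
    have q3 : ∀ i, pd i (fun x => v x i * ((φ x * f x) * (φ x * f x))) x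
        = v x i * (2 * (φ x * f x) * (φ x * pd i f x + pd i φ x * f x))
          + pd i (fun y => v y i) x * (φ x * f x) ^ 2 := by
      intro i
      rw [pd_mulx (hvi i) sFF.sm, pd_mulx sF.sm sF.sm, pd_mulx hφ hf]
      ring
    have q4 : (∑ i, pd i (fun y => v y i) x) * (φ x * f x) ^ 2 = 0 := by
      by_cases hx : φ x = 0
      · rw [hx]
        ring
      · rw [hdv x (hφO (subset_tsupport _ hx)), zero_mul]
    rw [Fin.sum_univ_three] at q4
    simp only [W221.NS.adv, Fin.sum_univ_three]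
    rw [q3, q3, q3, pd_mulx hφ hφ, pd_mulx hφ hφ, pd_mulx hφ hφ]
    linear_combination (-1) * q4
  -- the boundary terms
  have r1 : (fun x => x 0 * ((φ x * f x) * pd 0 (fun y => φ y * f y) x)
      + x 1 * ((φ x * f x) * pd 1 (fun y => φ y * f y) x))
      = fun x => 1 / 2 * RR (fun x => (φ x * f x) * (φ x * f x)) x := by
    funext x
    unfold RR
    rw [pd_mulx sF.sm sF.sm, pd_mulx sF.sm sF.sm]
    ring
  have r2 : (fun x => x 0 * (f x * f x * pd 0 (fun y => φ y * φ y) x)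
      + x 1 * (f x * f x * pd 1 (fun y => φ y * φ y) x))
      = fun x => f x * f x * RR (fun y => φ y * φ y) x := by
    funext x
    unfold RR
    ring
  have r3 : (fun x => x 0 * (v x 0 * ((φ x * f x) * (φ x * f x)))
      + x 1 * (v x 1 * ((φ x * f x) * (φ x * f x))))
      = fun x => rad v x * ((φ x * f x) * (φ x * f x)) := by
    funext x
    unfold rad
    ring
  rw [r1, J_cm, d4] at d1
  rw [r2] at d2
  rw [r3] at d3
  refine ⟨?_, ?_, ?_⟩
  · refine (sFF.int hb2).congr (Filter.Eventually.of_forall fun x => ?_)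
    show sg x ^ (γ - 1) * (φ x * f x * (φ x * f x)) = wt γ x * (f x ^ 2 * φ x ^ 2 / sg x)
    rw [← w1]
    ring
  · refine (sV.int hb2).congr (Filter.Eventually.of_forall fun x => ?_)
    show sg x ^ (γ - 1) * (rad v x * (φ x * f x * (φ x * f x)))
      = wt γ x * (rad v x / sg x) * (φ x * f x) ^ 2
    rw [← w1]
    ring
  · have g1 : GW γ (fun x => φ x * f x) = J γ (gr2 (fun x => φ x * f x)) := rfl
    have g2 : PW γ (fun x => φ x * f x) = J (γ - 1) (fun x => (φ x * f x) * (φ x * f x)) := by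
      unfold PW J
      refine integral_congr_ae (Filter.Eventually.of_forall fun x => ?_)
      show wt γ x * ((φ x * f x) ^ 2 / sg x) = sg x ^ (γ - 1) * (φ x * f x * (φ x * f x))
      rw [← w1]
      ring
    have g3 : (∫ x, wt γ x * (rad v x / sg x) * (φ x * f x) ^ 2)
        = J (γ - 1) (fun x => rad v x * ((φ x * f x) * (φ x * f x))) := by
      unfold J
      refine integral_congr_ae (Filter.Eventually.of_forall fun x => ?_)
      show wt γ x * (rad v x / sg x) * (φ x * f x) ^ 2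
        = sg x ^ (γ - 1) * (rad v x * (φ x * f x * (φ x * f x)))
      rw [← w1]
      ring
    have g4 : (∫ x, wt γ x * φ x ^ 2 * f x * S x) = J γ (fun x => φ x ^ 2 * f x * S x) := by
      unfold J
      refine integral_congr_ae (Filter.Eventually.of_forall fun x => ?_)
      show wt γ x * φ x ^ 2 * f x * S x = sg x ^ γ * (φ x ^ 2 * f x * S x)
      unfold wt
      ring
    have g5 : (∫ x, wt γ x * f x ^ 2 * (2 * gr2 φ x + W221.NS.adv v (fun y => φ y ^ 2) x
          - (2 - 2 * γ) / sg x * RR (fun y => φ y ^ 2) x))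
        = J γ (fun x => f x * f x * (2 * gr2 φ x + W221.NS.adv v (fun y => φ y * φ y) x))
          - (2 - 2 * γ) * J (γ - 1) (fun x => f x * f x * RR (fun y => φ y * φ y) x) := by
      rw [hP2]
      unfold J
      rw [← integral_const_mul, ← integral_sub (sB.int hb1) ((sQ.int hb2).const_mul _)]
      refine integral_congr_ae (Filter.Eventually.of_forall fun x => ?_)
      show wt γ x * f x ^ 2 * (2 * gr2 φ x + W221.NS.adv v (fun y => φ y * φ y) x
          - (2 - 2 * γ) / sg x * RR (fun y => φ y * φ y) x)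
        = sg x ^ γ * (f x * f x * (2 * gr2 φ x + W221.NS.adv v (fun y => φ y * φ y) x))
          - (2 - 2 * γ) * (sg x ^ (γ - 1) * (f x * f x * RR (fun y => φ y * φ y) x))
      rw [← w1]
      unfold wt
      ring
    have g6 : (∫ x, 2 * wt γ x * φ x ^ 2 * f x * (LL f x - W221.NS.adv v f x + S x))
        = J γ (fun x => 2 * A1 x + (-2) * gr2 (fun x => φ x * f x) x + (-1) * A2 x + (-1) * A3 x
            + 1 * (f x * f x * (2 * gr2 φ x + W221.NS.adv v (fun y => φ y * φ y) x))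
            + 2 * (φ x ^ 2 * f x * S x))
          + J (γ - 1) (fun x => 2 * RR (fun x => (φ x * f x) * (φ x * f x)) x
            + (-2) * (f x * f x * RR (fun y => φ y * φ y) x)) := by
      have i1 : SC (fun x => 2 * A1 x + (-2) * gr2 (fun x => φ x * f x) x + (-1) * A2 x
          + (-1) * A3 x + 1 * (f x * f x * (2 * gr2 φ x + W221.NS.adv v (fun y => φ y * φ y) x))
            + 2 * (φ x ^ 2 * f x * S x)) :=
        (((((sA1.cm 2).add (sG.cm (-2))).add (sA2.cm (-1))).add (sA3.cm (-1))).add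
          (sB.cm 1)).add (sS.cm 2)
      have i2 : SC (fun x => 2 * RR (fun x => (φ x * f x) * (φ x * f x)) x
            + (-2) * (f x * f x * RR (fun y => φ y * φ y) x)) := (sR.cm 2).add (sQ.cm (-2))
      unfold J
      rw [← integral_add (i1.int hb1) (i2.int hb2)]
      refine integral_congr_ae (Filter.Eventually.of_forall fun x => ?_)
      show 2 * wt γ x * φ x ^ 2 * f x * (LL f x - W221.NS.adv v f x + S x)
        = sg x ^ γ * (2 * A1 x + (-2) * gr2 (fun x => φ x * f x) x + (-1) * A2 x + (-1) * A3 x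
            + 1 * (f x * f x * (2 * gr2 φ x + W221.NS.adv v (fun y => φ y * φ y) x))
            + 2 * (φ x ^ 2 * f x * S x))
          + sg x ^ (γ - 1) * (2 * RR (fun x => (φ x * f x) * (φ x * f x)) x
            + (-2) * (f x * f x * RR (fun y => φ y * φ y) x))
      have h1 := p1 x
      have h2 := p2 x
      have h3 := p3 x
      have h4 : 2 * wt γ x * φ x ^ 2 * f x * (LL f x - W221.NS.adv v f x + S x)
          = sg x ^ γ * (2 * φ x ^ 2 * f x * lap f x - 2 * φ x ^ 2 * f x * W221.NS.adv v f x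
            + 2 * (φ x ^ 2 * f x * S x)) + wt γ x / sg x * (4 * φ x ^ 2 * f x * RR f x) := by
        unfold wt LL
        ring
      rw [h4, w1, h1, h2, h3]
      ring
    rw [g1, g2, g3, g4, g5, g6, J_six hb1 sA1 sG sA2 sA3 sB sS,
      J_add hb2 (sR.cm 2) (sQ.cm (-2)), J_cm, J_cm, d1, d2, d3, d4]
    ring

end Pool.Agent.Q174.AXW
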